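import Mathlib
import Pool.Agent.H10.Mader

set_option autoImplicit false

namespace Pool.Agent.Results.MP_542d22_co.EdgeCounter

/-- Q2 fails: it is not true that every loopless multidigraph with all out-degrees at least `r`
has an edge from `x` to `y` with `r` pairwise edge-disjoint directed walks from `x` to `y`. -/
theorem result :
    ¬ (∀ (r : ℕ), 1 ≤ r → ∀ (V E : Type) [Finite V] [Finite E] [Nonempty V] (tail head : E → V),
      (∀ e, tail e ≠ head e) →
      (∀ v : V, r ≤ Nat.card {e : E // tail e = v}) →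
      ∃ f : E, ∃ P : Fin r → List E,
        (∀ i, P i ≠ [] ∧ (∀ e ∈ (P i).head?, tail e = tail f) ∧
          (∀ e ∈ (P i).getLast?, head e = head f) ∧
          ∀ (k : ℕ) (a b : E), (P i)[k]? = some a → (P i)[k+1]? = some b → head a = tail b) ∧
        ∀ i j, i ≠ j → ∀ e ∈ P i, e ∉ P j) := by
  intro h
  obtain ⟨f, P, h1, h2⟩ := h 4 (by norm_num) (Fin 6) (Fin 24) Pool.Agent.H10.Mader.tail
    Pool.Agent.H10.Mader.head Pool.Agent.H10.Mader.noloop Pool.Agent.H10.Mader.outdeg
  exact Pool.Agent.H10.Mader.main _ _ (Pool.Agent.H10.Mader.noloop f) P h1 h2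

end Pool.Agent.Results.MP_542d22_co.EdgeCounter
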